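import Pool.Agent.Helper74K9.PS.Cert1

/-!
Clique factors in dense subgraphs of powers of cycles: the certificate, second part (payment).
-/

set_option autoImplicit false

namespace Pool.Agent.Helper74K9.PS

open Finset Pool.Agent.Helper83K9.CF

namespace CertL

open Classical in
/-- the number of conflicts -/
noncomputable def conf (q : ℕ → ℕ → Prop) (k N : ℕ) (X Y : Finset ℕ) : ℕ :=
  ∑ x ∈ X, (Y.filter (fun v => v ∈ LQ q k N x)).card

open Classical in
theorem conf_eq (q : ℕ → ℕ → Prop) (k N : ℕ) (X Y : Finset ℕ) :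
    conf q k N X Y = ∑ v ∈ Y, (X.filter (fun x => v ∈ LQ q k N x)).card := by
  unfold conf
  simp only [Finset.card_filter]
  exact Finset.sum_comm

/-- every vertex of `{f > 0}` in the window of a core is hit -/
theorem hitw {t k N : ℕ} {q : ℕ → ℕ → Prop} {f : ℕ → ℝ} (hq1 : ∀ x, q x x)
    (hq2 : ∀ x y, q x y → q y x) (hf : Feas q k N t f) {X : Finset ℕ} (hX : Tgt q k N t f X)
    (hc : X.card < t) {v : ℕ} (hv : v < N) (hfv : 0 < f v) (h1 : X.sup id ≤ v + k)
    (h2 : v ≤ X.sup id) : ∃ x ∈ X, v ∈ LQ q k N x := by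
  refine kp hq1 hq2 hf hX hc hv hfv fun y hy => ?_
  have h3 := le_last hy
  have h4 := last_le hX.cq hy
  exact ⟨by omega, by omega⟩

open Classical in
theorem conf_ge {t k N : ℕ} {q : ℕ → ℕ → Prop} {f : ℕ → ℝ} (hq1 : ∀ x, q x x)
    (hq2 : ∀ x y, q x y → q y x) (hf : Feas q k N t f) {X Y : Finset ℕ} (hX : Tgt q k N t f X)
    (hc : X.card < t) (hY : Tgt q k N t f Y) :
    ∀ v ∈ Y, (if X.sup id - k ≤ v ∧ v < X.sup id then 1 else 0) ≤
      (X.filter (fun x => v ∈ LQ q k N x)).card := by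
  intro v hv
  split_ifs with h
  · obtain ⟨x, hx, hvx⟩ := hitw hq1 hq2 hf hX hc (mem_range.1 (hY.cq.2.1 hv)) (hY.pos v hv)
      (by omega) (by omega)
    exact card_pos.2 ⟨x, mem_filter.2 ⟨hx, hvx⟩⟩
  · exact Nat.zero_le _

open Classical in
/-- the payment of the window of `X` to `Y` -/
theorem pay {t k N : ℕ} {q : ℕ → ℕ → Prop} {f : ℕ → ℝ} {w : Finset ℕ → ℝ} (hq1 : ∀ x, q x x)
    (hq2 : ∀ x y, q x y → q y x) (hf : Feas q k N t f) (hne : NoEx q k N t f w)
    {X Y : Finset ℕ} (hX : Tgt q k N t f X) (hY : Tgt q k N t f Y) (hwX : w X ≠ 0) (hwY : w Y ≠ 0)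
    (hXc : X.card < t) (hYc : Y.card < t) (hzl : X.sup id ≤ Y.sup id) {h : ℕ} (hh : 1 ≤ h)
    {σ : ℝ} (hσ0 : 0 ≤ σ) (hσ : t ≤ 4 ∨ 1 / 3 ≤ σ)
    (hn : 1 ≤ (Y.filter (fun v => v ∈ LQ q k N (X.sup id))).card) :
    (h : ℝ) ≤ ((h : ℝ) - 1 + σ) * ((Y.filter (fun v => v ∈ LQ q k N (X.sup id))).card : ℝ) +
      ((conf q k N X Y : ℝ) -
        ((Y.filter (fun v => X.sup id - k ≤ v ∧ v < X.sup id)).card : ℝ)) := by
  obtain ⟨n, hnn⟩ : ∃ n, n = (Y.filter (fun v => v ∈ LQ q k N (X.sup id))).card := ⟨_, rfl⟩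
  have hge := conf_ge hq1 hq2 hf hX hXc hY
  have hE : (Y.filter (fun v => X.sup id - k ≤ v ∧ v < X.sup id)).card ≤ conf q k N X Y := by
    rw [conf_eq, Finset.card_filter]
    exact sum_le_sum hge
  rw [← hnn] at hn ⊢
  have hhr : (1 : ℝ) ≤ h := by exact_mod_cast hh
  have hnr : (1 : ℝ) ≤ n := by exact_mod_cast hn
  rcases hE.lt_or_eq with hE1 | hE1
  · have h1 : ((Y.filter (fun v => X.sup id - k ≤ v ∧ v < X.sup id)).card : ℝ) + 1 ≤
        conf q k N X Y := by exact_mod_cast hE1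
    nlinarith [mul_nonneg (by linarith : (0 : ℝ) ≤ (h : ℝ) - 1) (by linarith : (0 : ℝ) ≤ (n : ℝ) - 1),
      mul_nonneg hσ0 (by linarith : (0 : ℝ) ≤ (n : ℝ))]
  · rw [← hE1, sub_self, add_zero]
    by_cases h2 : 2 ≤ h ∧ 2 ≤ n
    · have a1 : (2 : ℝ) ≤ h := by exact_mod_cast h2.1
      have a2 : (2 : ℝ) ≤ n := by exact_mod_cast h2.2
      nlinarith [mul_nonneg (by linarith : (0 : ℝ) ≤ (h : ℝ) - 2) (by linarith : (0 : ℝ) ≤ (n : ℝ) - 2),
        mul_nonneg hσ0 (by linarith : (0 : ℝ) ≤ (n : ℝ))]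
    · have hd : ∀ v ∈ Y, (X.filter (fun x => v ∈ LQ q k N x)).card =
          if X.sup id - k ≤ v ∧ v < X.sup id then 1 else 0 := by
        intro v hv
        rw [conf_eq, Finset.card_filter] at hE1
        have h3 := (Finset.sum_eq_sum_iff_of_le hge).1 hE1 v hv
        exact h3.symm
      by_cases h3 : X.card + n ≤ t + 1
      · exact absurd (exch hq1 hq2 hf hne hX hY hwX hwY hzl hd (by omega) (by omega)) id
      · have h4 : 3 ≤ n := by omega
        have h5 : h = 1 := by omega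
        rcases hσ with ht | hσ
        · exfalso
          -- `S` does not contain the last vertex of `Y`
          have h6 : (Y.filter (fun v => v ∈ LQ q k N (X.sup id))) ⊆ Y.erase (Y.sup id) := by
            intro v hv
            rw [mem_filter] at hv
            rw [mem_erase]
            refine ⟨?_, hv.1⟩
            intro hvl
            have h7 := hd v hv.1
            rw [if_neg (by omega), card_eq_zero] at h7
            have h8 : X.sup id ∈ X.filter (fun x => v ∈ LQ q k N x) :=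
              mem_filter.2 ⟨last_mem hX.cq, hv.2⟩
            rw [h7] at h8
            simp at h8
          have h9 := card_le_card h6
          rw [← hnn, card_erase_of_mem (last_mem hY.cq)] at h9
          omega
        · rw [h5]
          have a4 : (3 : ℝ) ≤ n := by exact_mod_cast h4
          push_cast
          nlinarith

end CertL

end Pool.Agent.Helper74K9.PS
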