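import Pool.Agent.Helper83K9.CF.Stm

/-!
Clique factors in dense subgraphs of powers of cycles: the fractional theorem on the line by units
and windows (proof of helper40, with a real multiplier `c`): statements.
-/

set_option autoImplicit false

namespace Pool.Agent.Helper74K9.PS

open Finset Pool.Agent.Helper83K9.CF

/-- cliques of any size on the line `0, ..., N-1` -/
def Cq (q : ℕ → ℕ → Prop) (k N : ℕ) (Y : Finset ℕ) : Prop :=
  Y.Nonempty ∧ Y ⊆ range N ∧ ∀ x ∈ Y, ∀ y ∈ Y, x < y → y ≤ x + k ∧ ¬ q x y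

/-- the feasible functions: at most `t` on the cliques with at most `t` vertices, at most `1` on
the first window -/
structure Feas (q : ℕ → ℕ → Prop) (k N t : ℕ) (f : ℕ → ℝ) : Prop where
  nonneg : ∀ v, 0 ≤ f v
  first : ∀ v, v < k → f v ≤ 1
  le : ∀ Y, Cq q k N Y → Y.card ≤ t → ∑ x ∈ Y, f x ≤ t

/-- the tight cliques inside `{f > 0}` -/
structure Tgt (q : ℕ → ℕ → Prop) (k N t : ℕ) (f : ℕ → ℝ) (Y : Finset ℕ) : Prop where
  cq : Cq q k N Y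
  card : Y.card ≤ t
  pos : ∀ v ∈ Y, 0 < f v
  eq : ∑ x ∈ Y, f x = t

/-- the load of the weights `w` at the vertex `v` -/
noncomputable def load (N : ℕ) (w : Finset ℕ → ℝ) (v : ℕ) : ℝ :=
  ∑ Y ∈ (range N).powerset, if v ∈ Y then w Y else 0

/-- the deficiency of the weights `w` -/
noncomputable def dfc (N t : ℕ) (w : Finset ℕ → ℝ) : ℝ :=
  ∑ Y ∈ (range N).powerset, w Y * ((t : ℝ) - Y.card)

/-- nonnegative weights on tight cliques -/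
def Wt (q : ℕ → ℕ → Prop) (k N t : ℕ) (f : ℕ → ℝ) (w : Finset ℕ → ℝ) : Prop :=
  (∀ Y, 0 ≤ w Y) ∧ ∀ Y, w Y ≠ 0 → Tgt q k N t f Y

/-- no exchange of two tight cliques in the support moves the sum of the last vertices to the
left -/
def NoEx (q : ℕ → ℕ → Prop) (k N t : ℕ) (f : ℕ → ℝ) (w : Finset ℕ → ℝ) : Prop :=
  ∀ X Y X' Y' : Finset ℕ, w X ≠ 0 → w Y ≠ 0 → Tgt q k N t f X' → Tgt q k N t f Y' →
    (∀ v, (if v ∈ X then 1 else 0) + (if v ∈ Y then 1 else 0) =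
      ((if v ∈ X' then 1 else 0) + (if v ∈ Y' then 1 else 0) : ℕ)) →
    X.sup id + Y.sup id ≤ X'.sup id + Y'.sup id

open Classical in
/-- [LPW] PROOF.  `f₀ = 1 - s/Θ` on `0, ..., N-1` (`Θ` large, `0` elsewhere) is feasible and has
`∑ μ (f₀ - 1) > 0`.  Let `f` maximise `∑_{v<N} μ f` over the feasible functions vanishing outside
`range N` (compact).  `S_FARKAS` with `V = {v < N : f v > 0}`, `I` = the tight cliques in `V` and
the `v < k` with `f v = 1` (a direction `-s` on `V` with `s ≥ 0` on all of these is feasible, so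
`∑ s μ ≥ 0`), `P = ∅`, gives `w ≥ 0`, `λ ≥ 0` with `load w v + λ v = μ v` on `V`.  Then
`0 < ∑ μ (f - 1) = (t ∑ w + ∑ λ) - (∑ w |Y| + ∑ λ) - μ(f = 0) = dfc w - μ(f = 0)`. -/
def S_LPW : Prop := ∀ (t k N : ℕ) (q : ℕ → ℕ → Prop) (μ s : ℕ → ℝ), 1 ≤ t → 1 ≤ k →
  (∀ x, q x x) → (∀ x y, q x y → q y x) → (∀ x, 0 ≤ μ x) →
  (∀ x, x < k → 0 ≤ s x) → (∀ K, LCl q k N t K → 0 ≤ ∑ x ∈ K, s x) →
  ∑ x ∈ range N, s x * μ x < 0 →
  ∃ (f : ℕ → ℝ) (w : Finset ℕ → ℝ), Feas q k N t f ∧ Wt q k N t f w ∧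
    (∀ v, v < N → 0 < f v → load N w v ≤ μ v) ∧
    ∑ v ∈ (range N).filter (fun v => f v = 0), μ v < dfc N t w

/-- [MIN] PROOF.  Among the weights on tight cliques with the same loads choose one which minimises
`∑ w Y * last Y` (compact set); an exchange of a small weight `ε` would decrease this sum.
`∑ w` is determined by the loads, since `t ∑ w Y = ∑ w Y f(Y) = ∑ f v load v`, and so is `dfc`. -/
def S_MIN : Prop := ∀ (t k N : ℕ) (q : ℕ → ℕ → Prop) (f : ℕ → ℝ) (w : Finset ℕ → ℝ), 1 ≤ t →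
  Wt q k N t f w → ∃ w' : Finset ℕ → ℝ, Wt q k N t f w' ∧ (∀ v, load N w' v = load N w v) ∧
    dfc N t w' = dfc N t w ∧ NoEx q k N t f w'

/-- the cores in the support of `w` -/
def Core (t : ℕ) (w : Finset ℕ → ℝ) (Y : Finset ℕ) : Prop := w Y ≠ 0 ∧ Y.card < t

/-- the admissible multipliers -/
def Mul (t : ℕ) (c : ℝ) : Prop :=
  (t ≤ 4 ∧ (t : ℝ) - 1 ≤ c) ∨ (t : ℝ) - 1 + 1 / 3 ≤ c

open Classical in
/-- [CERT] the certificate -/
def S_CERT : Prop := ∀ (t : ℕ) (c : ℝ) (k N : ℕ) (q : ℕ → ℕ → Prop) (μ f : ℕ → ℝ)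
  (w : Finset ℕ → ℝ), 2 ≤ t → Mul t c → 1 ≤ k →
  (∀ x, q x x) → (∀ x y, q x y → q y x) → (∀ x, 0 ≤ μ x) →
  (∀ z x, k ≤ z → z < N → x < N → z ≤ x + k → x ≤ z + k →
    c * ∑ y ∈ LQ q k N x, μ y ≤ ∑ y ∈ Ico (z - k) z, μ y) →
  Feas q k N t f → Wt q k N t f w → NoEx q k N t f w →
  (∀ v, v < N → 0 < f v → load N w v ≤ μ v) →
  dfc N t w ≤ ∑ v ∈ (range N).filter (fun v => f v = 0), μ v

/-- the dual statement with the multiplier `c` -/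
def DualC (t : ℕ) (c : ℝ) : Prop := ∀ (k N : ℕ) (q : ℕ → ℕ → Prop) (μ s : ℕ → ℝ), 1 ≤ k →
  (∀ x, q x x) → (∀ x y, q x y → q y x) → (∀ x, 0 ≤ μ x) →
  (∀ z x, k ≤ z → z < N → x < N → z ≤ x + k → x ≤ z + k →
    c * ∑ y ∈ LQ q k N x, μ y ≤ ∑ y ∈ Ico (z - k) z, μ y) →
  (∀ x, x < k → 0 ≤ s x) → (∀ K, LCl q k N t K → 0 ≤ ∑ x ∈ K, s x) →
  0 ≤ ∑ x ∈ range N, s x * μ x

/-- assembly -/
theorem dualC (h1 : S_LPW) (h2 : S_MIN) (h3 : S_CERT) (t : ℕ) (ht : 2 ≤ t) (c : ℝ)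
    (hc : Mul t c) : DualC t c := by
  classical
  intro k N q μ s hk hq1 hq2 hμ hw hs hK
  by_contra hcon
  obtain ⟨f, w, hf, hw1, hl, hlt⟩ := h1 t k N q μ s (by omega) hk hq1 hq2 hμ hs hK (not_le.1 hcon)
  obtain ⟨w', hw2, hl2, hd, hne⟩ := h2 t k N q f w (by omega) hw1
  have h4 := h3 t c k N q μ f w' ht hc hk hq1 hq2 hμ hw hf hw2 hne
    (fun v hv hfv => by rw [hl2 v]; exact hl v hv hfv)
  rw [hd] at h4
  refine absurd hlt (not_lt.2 ?_)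
  convert h4

/-- [BALR] `S_BAL` with a real multiplier (`CF/Bal.lean` with `c` instead of `t - 1`) -/
def S_BALR : Prop := ∀ (c ε : ℝ), 1 ≤ c → 0 < ε → ε ≤ 1 → ∃ β : ℝ, 0 < β ∧ β ≤ 1 / 4 ∧
  ∀ (n k m : ℕ) [NeZero n] (M : ZMod n → Finset (ZMod n)), Host n k m M →
  c * (m + 1) ≤ (1 - ε) * k → ∀ (U : Finset (ZMod n)) (D : ZMod n → ℝ) (θ : ℝ),
  (∀ v, 0 < D v) → 0 ≤ θ → θ * k ≤ β → Slow n θ D → St n k M (β * k) U D →
  ∀ (y : ZMod n) (i : ℕ), i ≤ 2 * k →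
    c * (M (y + (i : ZMod n)) ∩ U).card ≤ (win n k y ∩ U).card

end Pool.Agent.Helper74K9.PS
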