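import Pool.Agent.Helper74K9.PS.St

/-!
Clique factors in dense subgraphs of powers of cycles: the certificate, first part (windows,
units, exchange).
-/

set_option autoImplicit false

namespace Pool.Agent.Helper74K9.PS

open Finset Pool.Agent.Helper83K9.CF

namespace CertL

/-! ### windows -/

theorem wind (k : ℕ) : ∀ U : Finset ℕ, ∃ Z ⊆ U, (∀ z ∈ Z, ∀ z' ∈ Z, z < z' → z + k < z') ∧
    ∀ e ∈ U, ∃ z ∈ Z, e ≤ z ∧ z ≤ e + k := by
  intro U
  induction U using Finset.strongInduction with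
  | H U ih =>
    rcases U.eq_empty_or_nonempty with rfl | hne
    · exact ⟨∅, by simp, by simp, by simp⟩
    · obtain ⟨m, hm, hmax⟩ : ∃ m ∈ U, ∀ e ∈ U, e ≤ m :=
        ⟨U.max' hne, U.max'_mem hne, fun e he => U.le_max' e he⟩
      obtain ⟨Z, hZ1, hZ2, hZ3⟩ := ih (U.filter (fun e => e + k < m)) (by
        refine Finset.filter_ssubset.2 ⟨m, hm, by omega⟩)
      refine ⟨insert m Z, ?_, ?_, ?_⟩
      · intro z hz
        rcases Finset.mem_insert.1 hz with rfl | hz
        · exact hm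
        · exact (Finset.mem_filter.1 (hZ1 hz)).1
      · intro z hz z' hz' hlt
        rcases Finset.mem_insert.1 hz with h1 | h1 <;> rcases Finset.mem_insert.1 hz' with h2 | h2
        · omega
        · have := hmax z' (Finset.mem_filter.1 (hZ1 h2)).1
          omega
        · rw [h2]
          exact (Finset.mem_filter.1 (hZ1 h1)).2
        · exact hZ2 z h1 z' h2 hlt
      · intro e he
        by_cases h : e + k < m
        · obtain ⟨z, hz, h1⟩ := hZ3 e (Finset.mem_filter.2 ⟨he, h⟩)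
          exact ⟨z, Finset.mem_insert_of_mem hz, h1⟩
        · exact ⟨m, Finset.mem_insert_self _ _, hmax e he, by omega⟩

/-! ### units -/

open Classical in
/-- the greedy units -/
noncomputable def unit (t : ℕ) (C : Finset (Finset ℕ)) (hit : ℕ → Finset ℕ → Prop) : ℕ → ℕ
  | x => C.sup fun Y => if Y.sup id = x then
      t - Y.card - ∑ e ∈ (range x).attach, (if hit e.1 Y then unit t C hit e.1 else 0) else 0
termination_by x => x
decreasing_by exact Finset.mem_range.1 e.2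

open Classical in
theorem unit_eq (t : ℕ) (C : Finset (Finset ℕ)) (hit : ℕ → Finset ℕ → Prop) (x : ℕ) :
    unit t C hit x = C.sup fun Y => if Y.sup id = x then
      t - Y.card - ∑ e ∈ range x, (if hit e Y then unit t C hit e else 0) else 0 := by
  rw [unit]
  refine Finset.sup_congr rfl fun Y _ => ?_
  rw [Finset.sum_attach (range x) (fun e => if hit e Y then unit t C hit e else 0)]

open Classical in
theorem unit_ge {t : ℕ} {C : Finset (Finset ℕ)} {hit : ℕ → Finset ℕ → Prop} {Y : Finset ℕ}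
    (hY : Y ∈ C) : t ≤ Y.card + ∑ e ∈ range (Y.sup id), (if hit e Y then unit t C hit e else 0) +
      unit t C hit (Y.sup id) := by
  have h1 := Finset.le_sup (f := fun Z : Finset ℕ => if Z.sup id = Y.sup id then
      t - Z.card - ∑ e ∈ range (Y.sup id), (if hit e Z then unit t C hit e else 0) else 0) hY
  rw [← unit_eq] at h1
  simp only [if_true] at h1
  omega

open Classical in
theorem unit_pos {t : ℕ} {C : Finset (Finset ℕ)} {hit : ℕ → Finset ℕ → Prop} {x : ℕ}
    (hx : 0 < unit t C hit x) : ∃ X ∈ C, X.sup id = x ∧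
      unit t C hit x + X.card + ∑ e ∈ range x, (if hit e X then unit t C hit e else 0) = t := by
  have hne : C.Nonempty := by
    by_contra h
    rw [Finset.not_nonempty_iff_eq_empty] at h
    rw [unit_eq, h] at hx
    simp at hx
  obtain ⟨X, hX, hs⟩ := Finset.exists_mem_eq_sup C hne (fun Z : Finset ℕ => if Z.sup id = x then
      t - Z.card - ∑ e ∈ range x, (if hit e Z then unit t C hit e else 0) else 0)
  rw [← unit_eq] at hs
  by_cases h : X.sup id = x
  · simp only [h, if_true] at hs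
    exact ⟨X, hX, h, by omega⟩
  · simp only [h, if_false] at hs
    omega

/-! ### the exchange -/

theorem mem_LQ {q : ℕ → ℕ → Prop} {k N x v : ℕ} :
    v ∈ LQ q k N x ↔ v < N ∧ v ≤ x + k ∧ x ≤ v + k ∧ q x v := by
  classical
  unfold LQ
  rw [mem_filter, mem_range]

theorem last_mem {q : ℕ → ℕ → Prop} {k N : ℕ} {Y : Finset ℕ} (hY : Cq q k N Y) :
    Y.sup id ∈ Y := by
  obtain ⟨y, hy, h⟩ := Finset.exists_mem_eq_sup Y hY.1 id
  rw [h]
  exact hy

theorem le_last {Y : Finset ℕ} {y : ℕ} (hy : y ∈ Y) : y ≤ Y.sup id :=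
  Finset.le_sup (f := id) hy

theorem last_le {q : ℕ → ℕ → Prop} {k N : ℕ} {Y : Finset ℕ} (hY : Cq q k N Y) {y : ℕ}
    (hy : y ∈ Y) : Y.sup id ≤ y + k := by
  rcases (le_last hy).eq_or_lt with h | h
  · omega
  · exact (hY.2.2 y hy _ (last_mem hY) h).1

theorem near {q : ℕ → ℕ → Prop} {k N : ℕ} {Y : Finset ℕ} (hY : Cq q k N Y) {x y : ℕ}
    (hx : x ∈ Y) (hy : y ∈ Y) : x ≤ y + k :=
  (le_last hx).trans (last_le hY hy)

theorem nq {q : ℕ → ℕ → Prop} {k N : ℕ} (hq2 : ∀ x y, q x y → q y x) {Y : Finset ℕ}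
    (hY : Cq q k N Y) {x y : ℕ} (hx : x ∈ Y) (hy : y ∈ Y) (hne : x ≠ y) : ¬ q x y := by
  rcases lt_or_gt_of_ne hne with h | h
  · exact (hY.2.2 x hx y hy h).2
  · exact fun h' => (hY.2.2 y hy x hx h).2 (hq2 _ _ h')

/-- key principle: a vertex of `{f > 0}` in a common window with a core conflicts with it -/
theorem kp {t k N : ℕ} {q : ℕ → ℕ → Prop} {f : ℕ → ℝ} (hq1 : ∀ x, q x x)
    (hq2 : ∀ x y, q x y → q y x) (hf : Feas q k N t f) {Y : Finset ℕ} (hY : Tgt q k N t f Y)
    (hc : Y.card < t) {v : ℕ} (hv : v < N) (hfv : 0 < f v) (hn : ∀ y ∈ Y, v ≤ y + k ∧ y ≤ v + k) :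
    ∃ y ∈ Y, v ∈ LQ q k N y := by
  by_contra hcon
  push Not at hcon
  have hq : ∀ y ∈ Y, ¬ q y v := by
    intro y hy h
    exact hcon y hy (mem_LQ.2 ⟨hv, (hn y hy).1, (hn y hy).2, h⟩)
  have hvY : v ∉ Y := fun h => hq v h (hq1 v)
  have h1 := hf.le (insert v Y) ⟨⟨v, mem_insert_self _ _⟩, by
      intro x hx
      rcases mem_insert.1 hx with rfl | hx
      · exact mem_range.2 hv
      · exact hY.cq.2.1 hx, by
      intro x hx y hy hxy
      rcases mem_insert.1 hx with h1 | h1 <;> rcases mem_insert.1 hy with h2 | h2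
      · omega
      · rw [h1]
        exact ⟨(hn y h2).2, fun h => hq y h2 (hq2 _ _ h)⟩
      · rw [h2]
        exact ⟨(hn x h1).1, hq x h1⟩
      · exact hY.cq.2.2 x h1 y h2 hxy⟩ (by rw [card_insert_of_notMem hvY]; omega)
  rw [sum_insert hvY, hY.eq] at h1
  linarith

/-- cores end outside of the first window -/
theorem klast {t k N : ℕ} {q : ℕ → ℕ → Prop} {f : ℕ → ℝ} (hf : Feas q k N t f) {Y : Finset ℕ}
    (hY : Tgt q k N t f Y) (hc : Y.card < t) : k ≤ Y.sup id := by
  by_contra hcon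
  have h1 : ∑ x ∈ Y, f x ≤ ∑ x ∈ Y, (1 : ℝ) :=
    sum_le_sum fun x hx => hf.first x (by have := le_last hx; omega)
  rw [hY.eq, sum_const, nsmul_eq_mul, mul_one] at h1
  have : t ≤ Y.card := by exact_mod_cast h1
  omega

open Classical in
/-- the exchange of the last vertex `z` of `X` and its missing neighbours in `Y` -/
theorem exch {t k N : ℕ} {q : ℕ → ℕ → Prop} {f : ℕ → ℝ} {w : Finset ℕ → ℝ} (hq1 : ∀ x, q x x)
    (hq2 : ∀ x y, q x y → q y x) (hf : Feas q k N t f) (hne : NoEx q k N t f w)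
    {X Y : Finset ℕ} (hX : Tgt q k N t f X) (hY : Tgt q k N t f Y) (hwX : w X ≠ 0) (hwY : w Y ≠ 0)
    (hzl : X.sup id ≤ Y.sup id)
    (hd : ∀ v ∈ Y, (X.filter (fun x => v ∈ LQ q k N x)).card =
      if X.sup id - k ≤ v ∧ v < X.sup id then 1 else 0)
    (hn : 1 ≤ (Y.filter (fun v => v ∈ LQ q k N (X.sup id))).card)
    (hc : X.card + (Y.filter (fun v => v ∈ LQ q k N (X.sup id))).card ≤ t + 1) : False := by
  obtain ⟨z, hz⟩ : ∃ z, z = X.sup id := ⟨_, rfl⟩
  obtain ⟨l, hl⟩ : ∃ l, l = Y.sup id := ⟨_, rfl⟩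
  rw [← hz] at hd hn hc hzl
  rw [← hl] at hzl
  obtain ⟨S, hS⟩ : ∃ S, S = Y.filter (fun v => v ∈ LQ q k N z) := ⟨_, rfl⟩
  rw [← hS] at hn hc
  have hzX : z ∈ X := by rw [hz]; exact last_mem hX.cq
  have hlY : l ∈ Y := by rw [hl]; exact last_mem hY.cq
  have hmS : ∀ v, v ∈ S ↔ v ∈ Y ∧ v ∈ LQ q k N z := by
    intro v
    rw [hS, mem_filter]
  have hSL : ∀ v ∈ S, z - k ≤ v ∧ v < z := by
    intro v hv
    have h1 := hd v ((hmS v).1 hv).1
    by_contra hcon
    rw [if_neg hcon, card_eq_zero] at h1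
    have h2 : z ∈ X.filter (fun x => v ∈ LQ q k N x) := mem_filter.2 ⟨hzX, ((hmS v).1 hv).2⟩
    rw [h1] at h2
    simp at h2
  have hone : ∀ v ∈ S, ∀ x ∈ X, v ∈ LQ q k N x → x = z := by
    intro v hv x hx hvx
    have h1 := hd v ((hmS v).1 hv).1
    rw [if_pos (hSL v hv)] at h1
    obtain ⟨a, ha⟩ := card_eq_one.1 h1
    have h2 : x ∈ X.filter (fun x => v ∈ LQ q k N x) := mem_filter.2 ⟨hx, hvx⟩
    have h3 : z ∈ X.filter (fun x => v ∈ LQ q k N x) := mem_filter.2 ⟨hzX, ((hmS v).1 hv).2⟩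
    rw [ha, mem_singleton] at h2 h3
    rw [h2, h3]
  have hXle : ∀ x ∈ X, x ≤ z := fun x hx => by rw [hz]; exact le_last hx
  have hXk : ∀ x ∈ X, z ≤ x + k := fun x hx => by rw [hz]; exact last_le hX.cq hx
  have hYle : ∀ y ∈ Y, y ≤ l := fun x hx => by rw [hl]; exact le_last hx
  have hYk : ∀ y ∈ Y, l ≤ y + k := fun x hx => by rw [hl]; exact last_le hY.cq hx
  obtain ⟨s, hs⟩ := card_pos.1 (by omega : 0 < S.card)
  have hlz : l ≤ z + k := by
    have h1 := hYk s ((hmS s).1 hs).1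
    have h2 := (hSL s hs).2
    omega
  have hzY : z ∉ Y := by
    intro h
    have h1 : z ∈ S := (hmS z).2 ⟨h, mem_LQ.2 ⟨mem_range.1 (hX.cq.2.1 hzX), by omega, by omega,
      hq1 z⟩⟩
    exact lt_irrefl _ (hSL z h1).2
  have hSX : ∀ v ∈ S, v ∉ X := by
    intro v hv h
    have h1 := hone v hv v h (mem_LQ.2 ⟨mem_range.1 (hX.cq.2.1 h), by omega, by omega, hq1 v⟩)
    have h2 := (hSL v hv).2
    omega
  have hzS : z ∉ S := fun h => lt_irrefl _ (hSL z h).2
  -- no conflicts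
  have hq3 : ∀ v ∈ S, ∀ x ∈ X, x ≠ z → ¬ q x v := by
    intro v hv x hx hxz h
    refine hxz (hone v hv x hx (mem_LQ.2 ⟨mem_range.1 (hY.cq.2.1 ((hmS v).1 hv).1), ?_, ?_, h⟩))
    · have h1 := hXk x hx
      have h2 := (hSL v hv).2
      omega
    · have h1 := hXle x hx
      have h2 := (hSL v hv).1
      omega
  have hq4 : ∀ y ∈ Y, y ∉ S → ¬ q z y := by
    intro y hy hyS h
    refine hyS ((hmS y).2 ⟨hy, mem_LQ.2 ⟨mem_range.1 (hY.cq.2.1 hy), ?_, ?_, h⟩⟩)
    · have h1 := hYle y hy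
      omega
    · have h1 := hYk y hy
      omega
  obtain ⟨X', hX'⟩ : ∃ X', X' = X.erase z ∪ S := ⟨_, rfl⟩
  obtain ⟨Y', hY'⟩ : ∃ Y', Y' = insert z (Y \ S) := ⟨_, rfl⟩
  have hmX : ∀ v, v ∈ X' ↔ (v ≠ z ∧ v ∈ X) ∨ v ∈ S := by
    intro v
    rw [hX', mem_union, mem_erase]
  have hmY : ∀ v, v ∈ Y' ↔ v = z ∨ (v ∈ Y ∧ v ∉ S) := by
    intro v
    rw [hY', mem_insert, mem_sdiff]
  have hXlt : ∀ v ∈ X', v < z := by
    intro v hv
    rcases (hmX v).1 hv with ⟨h1, h2⟩ | h
    · have := hXle v h2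
      omega
    · exact (hSL v h).2
  have hXge : ∀ v ∈ X', z ≤ v + k := by
    intro v hv
    rcases (hmX v).1 hv with ⟨h1, h2⟩ | h
    · exact hXk v h2
    · have := (hSL v h).1
      omega
  have hcX : Cq q k N X' := by
    refine ⟨⟨s, (hmX s).2 (Or.inr hs)⟩, ?_, ?_⟩
    · intro v hv
      rcases (hmX v).1 hv with ⟨h1, h2⟩ | h
      · exact hX.cq.2.1 h2
      · exact hY.cq.2.1 ((hmS v).1 h).1
    · intro x hx y hy hxy
      refine ⟨?_, ?_⟩
      · have h1 := hXlt y hy
        have h2 := hXge x hx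
        omega
      · rcases (hmX x).1 hx with ⟨h1, h2⟩ | h <;> rcases (hmX y).1 hy with ⟨h3, h4⟩ | h'
        · exact nq hq2 hX.cq h2 h4 (by omega)
        · exact hq3 y h' x h2 h1
        · exact fun hh => hq3 x h y h4 h3 (hq2 _ _ hh)
        · exact nq hq2 hY.cq ((hmS x).1 h).1 ((hmS y).1 h').1 (by omega)
  have hcY : Cq q k N Y' := by
    refine ⟨⟨z, (hmY z).2 (Or.inl rfl)⟩, ?_, ?_⟩
    · intro v hv
      rcases (hmY v).1 hv with rfl | h
      · exact hX.cq.2.1 hzX
      · exact hY.cq.2.1 h.1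
    · intro x hx y hy hxy
      rcases (hmY x).1 hx with rfl | ⟨h1, h2⟩ <;> rcases (hmY y).1 hy with rfl | ⟨h3, h4⟩
      · omega
      · have h5 := hYle y h3
        exact ⟨by omega, hq4 y h3 h4⟩
      · have h5 := hYk x h1
        exact ⟨by omega, fun hh => hq4 x h1 h2 (hq2 _ _ hh)⟩
      · exact hY.cq.2.2 x h1 y h3 hxy
  have hdis : Disjoint (X.erase z) S := by
    rw [Finset.disjoint_left]
    intro v h1 h2
    exact hSX v h2 (mem_erase.1 h1).2
  have hcardX : X'.card = X.card - 1 + S.card := by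
    rw [hX', card_union_of_disjoint hdis, card_erase_of_mem hzX]
  have hXpos : 1 ≤ X.card := card_pos.2 ⟨z, hzX⟩
  have hSY : S ⊆ Y := fun v hv => ((hmS v).1 hv).1
  have hzYS : z ∉ Y \ S := fun h => hzY (mem_sdiff.1 h).1
  have hcardY : Y'.card = Y.card - S.card + 1 := by
    rw [hY', card_insert_of_notMem hzYS, card_sdiff_of_subset hSY]
  have hSle : S.card ≤ Y.card := card_le_card hSY
  have hsX : ∑ x ∈ X', f x = ∑ x ∈ X, f x - f z + ∑ x ∈ S, f x := by
    rw [hX', sum_union hdis, ← Finset.sum_erase_add X f hzX]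
    ring
  have hsY : ∑ x ∈ Y', f x = ∑ x ∈ Y, f x + f z - ∑ x ∈ S, f x := by
    rw [hY', sum_insert hzYS, ← Finset.sum_sdiff hSY]
    ring
  have hYt := hY.card
  have h1 := hf.le X' hcX (by rw [hcardX]; omega)
  have h2 := hf.le Y' hcY (by rw [hcardY]; omega)
  have hposX : ∀ v ∈ X', 0 < f v := by
    intro v hv
    rcases (hmX v).1 hv with ⟨h3, h4⟩ | h
    · exact hX.pos v h4
    · exact hY.pos v ((hmS v).1 h).1
  have hposY : ∀ v ∈ Y', 0 < f v := by
    intro v hv
    rcases (hmY v).1 hv with rfl | h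
    · exact hX.pos _ hzX
    · exact hY.pos v h.1
  have h3 := hne X Y X' Y' hwX hwY
    ⟨hcX, by rw [hcardX]; omega, hposX, by rw [hsX, hX.eq] at h1 ⊢; rw [hsY, hY.eq] at h2; linarith⟩
    ⟨hcY, by rw [hcardY]; omega, hposY, by rw [hsX, hX.eq] at h1; rw [hsY, hY.eq] at h2 ⊢; linarith⟩
    (by
      intro v
      by_cases hvz : v = z
      · subst hvz
        rw [if_pos hzX, if_neg hzY, if_neg (fun h => lt_irrefl _ (hXlt _ h)),
          if_pos ((hmY _).2 (Or.inl rfl))]
      · by_cases hvS : v ∈ S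
        · rw [if_neg (hSX v hvS), if_pos (hSY hvS), if_pos ((hmX v).2 (Or.inr hvS)),
            if_neg (fun h => by rcases (hmY v).1 h with h | h; exact hvz h; exact h.2 hvS)]
        · have e1 : v ∈ X' ↔ v ∈ X := by
            rw [hmX]
            constructor
            · rintro (h | h)
              · exact h.2
              · exact absurd h hvS
            · exact fun h => Or.inl ⟨hvz, h⟩
          have e2 : v ∈ Y' ↔ v ∈ Y := by
            rw [hmY]
            constructor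
            · rintro (h | h)
              · exact absurd h hvz
              · exact h.1
            · exact fun h => Or.inr ⟨h, hvS⟩
          simp only [e1, e2])
  have h4 : X'.sup id < z := by
    have h5 := last_mem hcX
    exact hXlt _ h5
  have h5 : Y'.sup id ≤ l := by
    have h6 := last_mem hcY
    rcases (hmY _).1 h6 with h | h
    · rw [h]
      exact hzl
    · exact hYle _ h.1
  omega

end CertL

end Pool.Agent.Helper74K9.PS
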